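import Pool.Agent.Q161.WordRep2

/-!
MP_74a3a5_co, Q1: toroidal grid graphs with representation number at most three.
-/

set_option autoImplicit false

namespace Pool.Agent.Results.MP_74a3a5_co.TriangleTimesCycle

open SimpleGraph Q161.WordRep

/-- the toroidal grid graph `C_m □ C_n` (for `m, n ≥ 3`) -/
abbrev torusGrid (m n : ℕ) : SimpleGraph (Fin m × Fin n) := cycleGraph m □ cycleGraph n

/-- the letters `x` and `y` alternate in `w`: when all the other letters are deleted from `w`, no two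
consecutive letters are equal -/
abbrev Alternate {V : Type*} [DecidableEq V] (w : List V) (x y : V) : Prop :=
  (w.filter (fun z => z = x ∨ z = y)).IsChain (· ≠ ·)

/-- the word `w` is a `k`-representation of the graph `G` -/
def Represents {V : Type*} [DecidableEq V] (G : SimpleGraph V) (k : ℕ) (w : List V) : Prop :=
  (∀ v, w.count v = k) ∧ ∀ x y, x ≠ y → (Alternate w x y ↔ G.Adj x y)

/-- the graph `G` is `k`-word-representable -/
def WordRepresentable {V : Type*} [DecidableEq V] (G : SimpleGraph V) (k : ℕ) : Prop :=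
  ∃ w : List V, Represents G k w

/-- the representation number: the least `k ≥ 1` such that `G` is `k`-word-representable -/
noncomputable def repNumber {V : Type*} [DecidableEq V] (G : SimpleGraph V) : ℕ :=
  sInf {k | 1 ≤ k ∧ WordRepresentable G k}

theorem cycle_adj {n : ℕ} (hn : 5 ≤ n) (u v : Fin n) : (cycleGraph n).Adj u v ↔
    ((u : ℕ) + 1 = v ∨ (v : ℕ) + 1 = u ∨ ((u : ℕ) = 0 ∧ (v : ℕ) = n - 1) ∨
      ((v : ℕ) = 0 ∧ (u : ℕ) = n - 1)) := by
  rw [cycleGraph_adj']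
  have hu := u.2
  have hv := v.2
  rcases lt_trichotomy (u : ℕ) v with h | h | h
  · have h1 : (v - u).val = v - u := Fin.sub_val_of_le (by rw [Fin.le_def]; omega)
    have h2 : (u - v).val = n - v + u := by
      rw [Fin.val_sub, Nat.mod_eq_of_lt (by omega)]
    rw [h1, h2]
    omega
  · have h1 : u = v := Fin.ext h
    subst h1
    have h2 : (u - u).val = 0 := by rw [Fin.sub_val_of_le le_rfl]; omega
    rw [h2]
    omega
  · have h1 : (u - v).val = u - v := Fin.sub_val_of_le (by rw [Fin.le_def]; omega)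
    have h2 : (v - u).val = n - u + v := by
      rw [Fin.val_sub, Nat.mod_eq_of_lt (by omega)]
    rw [h1, h2]
    omega

theorem triangle_adj (i j : Fin 3) : (cycleGraph 3).Adj i j ↔ i ≠ j := by
  revert i j
  decide

theorem three_rows {n : ℕ} (hn : 5 ≤ n) : WordRepresentable (torusGrid 3 n) 3 := by
  have : Nonempty (Fin 3 × Fin n) := ⟨(0, ⟨0, by omega⟩)⟩
  refine ⟨word (pos n), fun v => count_word (pos_inj hn) v, ?_⟩
  intro x y hxy
  unfold Alternate
  rw [alternate_iff (pos_inj hn) (pos_mono hn) hxy, inter_iff hn x y hxy]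
  show Adj' n x.1 y.1 x.2 y.2 ↔ (cycleGraph 3 □ cycleGraph n).Adj x y
  rw [boxProd_adj, triangle_adj, cycle_adj hn]
  unfold Adj'
  rw [Fin.ext_iff (a := x.2) (b := y.2)]

/-- a 3-representation of `C_4 □ C_6` -/
def word46 : List (Fin 4 × Fin 6) :=
    [(0, 0), (0, 5), (3, 0), (0, 1), (1, 0), (0, 0), (0, 2), (3, 1), (1, 1), (0, 1), (2, 0),
    (1, 5), (1, 0), (2, 3), (2, 2), (1, 3), (3, 4), (3, 3), (2, 4), (2, 3), (3, 5), (3, 0),
    (2, 5), (0, 4), (3, 4), (0, 5), (0, 0), (3, 5), (1, 4), (1, 2), (0, 3), (0, 4), (1, 5),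
    (0, 5), (2, 4), (1, 3), (2, 1), (1, 4), (2, 0), (1, 1), (3, 2), (2, 2), (1, 0), (3, 1),
    (2, 1), (3, 3), (0, 2), (0, 1), (3, 2), (0, 3), (3, 4), (2, 3), (3, 3), (0, 4), (1, 2),
    (0, 2), (1, 3), (0, 3), (2, 2), (1, 1), (2, 5), (1, 2), (2, 4), (1, 5), (3, 0), (2, 0),
    (3, 5), (2, 5), (3, 1), (3, 2), (2, 1), (1, 4)]

/-- a 3-representation of `C_5 □ C_6` -/
def word56 : List (Fin 5 × Fin 6) :=
    [(0, 0), (1, 3), (2, 4), (4, 5), (0, 5), (0, 3), (1, 4), (3, 5), (4, 0), (4, 4), (4, 5),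
    (0, 4), (4, 3), (3, 4), (4, 4), (2, 5), (3, 0), (3, 5), (2, 2), (2, 3), (3, 2), (3, 3),
    (1, 1), (1, 2), (2, 1), (2, 2), (1, 0), (1, 5), (2, 0), (0, 1), (1, 1), (0, 2), (4, 1),
    (0, 0), (0, 1), (3, 1), (4, 2), (1, 0), (4, 0), (0, 5), (0, 0), (4, 1), (3, 0), (4, 5),
    (4, 0), (2, 1), (3, 2), (3, 1), (2, 4), (2, 5), (3, 4), (1, 3), (2, 3), (1, 4), (2, 4),
    (1, 2), (0, 3), (1, 1), (2, 2), (1, 3), (0, 2), (0, 1), (3, 5), (4, 3), (0, 4), (0, 3),
    (3, 3), (1, 2), (4, 2), (4, 4), (0, 2), (4, 3), (3, 2), (4, 1), (4, 2), (2, 3), (3, 4),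
    (3, 3), (2, 0), (2, 1), (3, 0), (3, 1), (1, 5), (2, 5), (1, 0), (2, 0), (1, 4), (0, 5),
    (1, 5), (0, 4)]

/-- a 3-representation of `C_6 □ C_6` -/
def word66 : List (Fin 6 × Fin 6) :=
    [(0, 0), (5, 5), (4, 5), (1, 5), (0, 5), (0, 1), (5, 4), (5, 0), (5, 5), (1, 0), (0, 0),
    (5, 1), (4, 0), (0, 2), (5, 0), (1, 1), (0, 1), (4, 2), (5, 2), (4, 1), (5, 1), (4, 3),
    (3, 2), (1, 3), (4, 2), (0, 3), (1, 2), (2, 4), (1, 4), (0, 4), (2, 3), (1, 3), (2, 5),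
    (3, 4), (2, 4), (1, 5), (3, 5), (2, 0), (2, 5), (3, 0), (2, 1), (2, 2), (3, 1), (0, 5),
    (1, 4), (1, 0), (1, 5), (2, 0), (1, 1), (0, 0), (1, 0), (2, 1), (0, 2), (1, 2), (5, 3),
    (0, 1), (1, 1), (0, 3), (5, 2), (3, 3), (0, 2), (2, 3), (3, 2), (4, 4), (3, 4), (2, 4),
    (1, 3), (4, 3), (3, 3), (5, 4), (4, 5), (4, 4), (3, 5), (4, 0), (5, 5), (4, 5), (4, 1),
    (5, 0), (3, 4), (3, 0), (4, 0), (2, 5), (2, 0), (3, 5), (4, 2), (3, 1), (3, 0), (5, 1),
    (4, 1), (2, 2), (2, 1), (3, 2), (3, 1), (2, 3), (1, 2), (2, 2), (5, 3), (4, 3), (5, 2),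
    (0, 4), (0, 3), (5, 4), (4, 4), (3, 3), (1, 4), (5, 3), (0, 5), (0, 4)]

theorem rep46 : WordRepresentable (torusGrid 4 6) 3 := by
  refine ⟨word46, by decide +kernel, ?_⟩
  simp only [boxProd_adj]
  decide +kernel

theorem rep56 : WordRepresentable (torusGrid 5 6) 3 := by
  refine ⟨word56, by decide +kernel, ?_⟩
  simp only [boxProd_adj]
  decide +kernel

theorem rep66 : WordRepresentable (torusGrid 6 6) 3 := by
  refine ⟨word66, by decide +kernel, ?_⟩
  simp only [boxProd_adj]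
  decide +kernel

theorem repNumber_le {V : Type*} [DecidableEq V] {G : SimpleGraph V} (h : WordRepresentable G 3) :
    repNumber G ≤ 3 := Nat.sInf_le ⟨by norm_num, h⟩

/-- The toroidal grid graphs `C_3 □ C_n` are 3-word-representable for all `n ≥ 5`, and so are
`C_4 □ C_6`, `C_5 □ C_6` and `C_6 □ C_6`. Hence the representation number of a toroidal grid graph
`C_m □ C_n` with `m, n ≥ 3` and `m + n ≥ 8` is not always at least four. -/
theorem result :
    (∀ n : ℕ, 5 ≤ n → WordRepresentable (torusGrid 3 n) 3 ∧ repNumber (torusGrid 3 n) ≤ 3) ∧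
    (WordRepresentable (torusGrid 4 6) 3 ∧ repNumber (torusGrid 4 6) ≤ 3) ∧
    (WordRepresentable (torusGrid 5 6) 3 ∧ repNumber (torusGrid 5 6) ≤ 3) ∧
    (WordRepresentable (torusGrid 6 6) 3 ∧ repNumber (torusGrid 6 6) ≤ 3) ∧
    ¬ ∀ m n : ℕ, 3 ≤ m → 3 ≤ n → 8 ≤ m + n → 4 ≤ repNumber (torusGrid m n) := by
  refine ⟨fun n hn => ⟨three_rows hn, repNumber_le (three_rows hn)⟩,
    ⟨rep46, repNumber_le rep46⟩, ⟨rep56, repNumber_le rep56⟩, ⟨rep66, repNumber_le rep66⟩, ?_⟩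
  intro h
  have h1 := h 3 5 le_rfl (by norm_num) (by norm_num)
  have h2 := repNumber_le (three_rows (le_refl 5))
  omega

end Pool.Agent.Results.MP_74a3a5_co.TriangleTimesCycle
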